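import Mathlib
import Pool.Agent.Mg.F40fdec.G80237a

namespace Pool.Agent.Results.MP_ac9d16_lc.High

open Pool.Agent.MP_ac9d16_lc

/-- There is a set `A` computable from the halting set such that every infinite subset `H` of `A`
or of its complement that is computably enumerable in the halting set is high. -/
theorem result : ∃ A : Set ℕ, Computes (jump ∅) (chi A) ∧
    ∀ H : Set ℕ, H.Infinite → (H ⊆ A ∨ H ⊆ Aᶜ) →
      (∃ e, ∀ x, x ∈ H ↔ (Phi (chi (jump ∅)) e x).Dom) →
      Computes (jump H) (chi (jump (jump ∅))) :=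
  ⟨T.AA, computes_iff.2 T.computes_AA, fun _ hH h ⟨_, he⟩ => computes_iff.2 (T.high hH h he)⟩

end Pool.Agent.Results.MP_ac9d16_lc.High
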